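import Pool.Agent.Run7.h677.PS.Stm

/-!
# Piece FIN of project PS (helper677, MP_c3eb34_co): Pach's theorem from the perturbed version
-/

set_option autoImplicit false

namespace Pool.Agent.Run7.h677.PS

open Finset

theorem t_FIN : S_PGP → S_LIM → S_FIN := by
  classical
  intro hPGP hLIM d hd
  obtain ⟨c, hc, n0, h⟩ := hPGP d hd
  have h1 : (0 : ℝ) < 1 / ((n0 : ℝ) + 1) := by positivity
  refine ⟨min c (1 / ((n0 : ℝ) + 1)), lt_min hc h1, ?_⟩
  intro n C hn hC
  by_cases hlt : n < n0
  · have hne : ∀ i, (C i).Nonempty := fun i => Finset.card_pos.1 (by rw [hC i]; omega)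
    choose x hx using hne
    refine ⟨x 0, fun i => {x i}, fun i => ⟨Finset.singleton_subset_iff.2 (hx i), ?_⟩, ?_⟩
    · rw [Finset.card_singleton, Nat.cast_one]
      calc min c (1 / ((n0 : ℝ) + 1)) * (n : ℝ) ≤ 1 / ((n0 : ℝ) + 1) * (n : ℝ) := by
            gcongr
            exact min_le_right _ _
        _ = (n : ℝ) / ((n0 : ℝ) + 1) := by ring
        _ ≤ 1 := by
            rw [div_le_one (by positivity)]
            have : (n : ℝ) < n0 := by exact_mod_cast hlt
            linarith
    · intro y hy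
      apply subset_convexHull
      exact ⟨0, Finset.mem_singleton.1 (hy 0)⟩
  · let X : Fin (d + 1) → Fin n → E d := fun i j => (((C i).equivFinOfCardEq (hC i)).symm j : C i)
    have hXinj : ∀ i, Function.Injective (X i) := fun i a b hab =>
      ((C i).equivFinOfCardEq (hC i)).symm.injective (Subtype.ext hab)
    have hXC : ∀ i j, X i j ∈ C i := fun i j => (((C i).equivFinOfCardEq (hC i)).symm j).2
    obtain ⟨p, Z, hP, hZ⟩ := hLIM d n X (fun Z => ∀ i, c * (n : ℝ) ≤ ((Z i).card : ℝ))
      (fun ε hε => by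
        obtain ⟨X'', p, Z, h1, h2, h3⟩ := h n (by omega) X ε hε
        exact ⟨X'', p, Z, h1, h2, h3⟩)
    refine ⟨p, fun i => (Z i).image (X i), fun i => ⟨?_, ?_⟩, ?_⟩
    · intro z hz
      obtain ⟨j, _, rfl⟩ := Finset.mem_image.1 hz
      exact hXC i j
    · rw [Finset.card_image_of_injective _ (hXinj i)]
      calc min c (1 / ((n0 : ℝ) + 1)) * (n : ℝ) ≤ c * (n : ℝ) := by
            gcongr
            exact min_le_left _ _
        _ ≤ _ := hP i
    · intro x hx
      have hx' : ∀ i, ∃ j ∈ Z i, X i j = x i := fun i => Finset.mem_image.1 (hx i)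
      choose f hf using hx'
      have h2 := hZ f (fun i => (hf i).1)
      unfold hullX at h2
      refine convexHull_mono ?_ h2
      rintro _ ⟨i, _, rfl⟩
      exact ⟨i, (hf i).2.symm⟩

end Pool.Agent.Run7.h677.PS
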